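import Mathlib

section
/-!
# MP_d26cd8_an, PET: measure preserving powers and the van der Corput inequality
-/
set_option autoImplicit false

open MeasureTheory Filter Topology Polynomial
open scoped ComplexConjugate

namespace MPd26.PET

variable {X : Type} [MeasurableSpace X]

/-- Measurable functions bounded by one. -/
def U (f : X → ℂ) : Prop := Measurable f ∧ ∀ x, ‖f x‖ ≤ 1

/-- Invertible measure preserving maps. -/
structure MP (μ : Measure X) (T : Equiv.Perm X) : Prop where
  m : Measurable (⇑T)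
  m' : Measurable (⇑T.symm)
  mp : MeasurePreserving (⇑T) μ μ

lemma MP.symm {μ : Measure X} {T : Equiv.Perm X} (h : MP μ T) : MP μ T.symm := by
  refine ⟨h.m', by simpa using h.m, ?_⟩
  refine ⟨h.m', ?_⟩
  conv_lhs => rw [← h.mp.map_eq]
  rw [Measure.map_map h.m' h.m]
  have : (⇑T.symm) ∘ (⇑T) = id := by
    funext x
    simp
  rw [this, Measure.map_id]

lemma MP.mul {μ : Measure X} {T S : Equiv.Perm X} (h : MP μ T) (h' : MP μ S) : MP μ (T * S) := by
  refine ⟨?_, ?_, ?_⟩
  · exact h.m.comp h'.m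
  · exact h'.m'.comp h.m'
  · exact h.mp.comp h'.mp

lemma MP.one (μ : Measure X) : MP μ (1 : Equiv.Perm X) := by
  refine ⟨measurable_id, measurable_id, ?_⟩
  exact MeasurePreserving.id μ

lemma MP.zpow {μ : Measure X} {T : Equiv.Perm X} (h : MP μ T) (z : ℤ) : MP μ (T ^ z) := by
  induction z using Int.induction_on with
  | zero => rw [zpow_zero]; exact MP.one μ
  | succ n ih => rw [zpow_add_one]; exact ih.mul h
  | pred n ih => rw [zpow_sub_one]; exact ih.mul h.symm

/-- the measurable equivalence -/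
def MP.equiv {μ : Measure X} {T : Equiv.Perm X} (h : MP μ T) : X ≃ᵐ X :=
  { toEquiv := T, measurable_toFun := h.m, measurable_invFun := h.m' }

lemma MP.integral_comp {μ : Measure X} {T : Equiv.Perm X} (h : MP μ T) (F : X → ℂ) :
    ∫ x, F (T x) ∂μ = ∫ x, F x ∂μ :=
  MeasurePreserving.integral_comp (f := h.equiv) h.mp h.equiv.measurableEmbedding F

lemma U.integrable {μ : Measure X} [IsFiniteMeasure μ] {f : X → ℂ} (h : U f) : Integrable f μ :=
  Integrable.of_bound h.1.aestronglyMeasurable 1 (Eventually.of_forall h.2)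

lemma U.comp {f : X → ℂ} (h : U f) {T : X → X} (hT : Measurable T) : U (fun x => f (T x)) :=
  ⟨h.1.comp hT, fun _ => h.2 _⟩

lemma U.conj {f : X → ℂ} (h : U f) : U (fun x => conj (f x)) :=
  ⟨Complex.continuous_conj.measurable.comp h.1, fun x => by
    rw [RCLike.norm_conj]
    exact h.2 x⟩

lemma U.mul {f g : X → ℂ} (h : U f) (h' : U g) : U (fun x => f x * g x) :=
  ⟨h.1.mul h'.1, fun x => by
    rw [norm_mul]
    exact mul_le_one₀ (h.2 x) (norm_nonneg _) (h'.2 x)⟩

lemma U.one : U (fun _ : X => (1 : ℂ)) := ⟨measurable_const, fun _ => by simp⟩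

lemma U.prod {ι : Type} (s : Finset ι) {f : ι → X → ℂ} (h : ∀ i ∈ s, U (f i)) :
    U (fun x => ∏ i ∈ s, f i x) := by
  refine ⟨?_, fun x => ?_⟩
  · exact Finset.measurable_prod s fun i hi => (h i hi).1
  · rw [norm_prod]
    exact Finset.prod_le_one (fun i _ => norm_nonneg _) (fun i hi => (h i hi).2 x)

lemma norm_int_le {μ : Measure X} [IsProbabilityMeasure μ] {f : X → ℂ} (h : U f) :
    ‖∫ x, f x ∂μ‖ ≤ 1 := by
  calc ‖∫ x, f x ∂μ‖ ≤ 1 * μ.real Set.univ := norm_integral_le_of_norm_le_const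
        (Eventually.of_forall h.2)
    _ = 1 := by simp

lemma norm_avg_le {N : ℕ} {a : ℕ → ℂ} (ha : ∀ n, ‖a n‖ ≤ 1) :
    ‖((N : ℂ))⁻¹ * ∑ n ∈ Finset.range N, a n‖ ≤ 1 := by
  rcases Nat.eq_zero_or_pos N with h | h
  · subst h; simp
  · have h1 : ‖∑ n ∈ Finset.range N, a n‖ ≤ N := by
      calc ‖∑ n ∈ Finset.range N, a n‖ ≤ ∑ n ∈ Finset.range N, ‖a n‖ := norm_sum_le _ _
        _ ≤ ∑ n ∈ Finset.range N, (1 : ℝ) := Finset.sum_le_sum fun n _ => ha n
        _ = N := by simp
    rw [norm_mul, norm_inv, Complex.norm_natCast]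
    have h2 : (0 : ℝ) < N := by exact_mod_cast h
    calc (N : ℝ)⁻¹ * ‖∑ n ∈ Finset.range N, a n‖ ≤ (N : ℝ)⁻¹ * N :=
          mul_le_mul_of_nonneg_left h1 (by positivity)
      _ = 1 := inv_mul_cancel₀ h2.ne'

/-- shifting an average -/
lemma shift_sum {N h : ℕ} {a : ℕ → ℂ} (ha : ∀ n, ‖a n‖ ≤ 1) :
    ‖∑ n ∈ Finset.range N, a n - ∑ n ∈ Finset.range N, a (n + h)‖ ≤ 2 * h := by
  induction h with
  | zero => simp
  | succ h ih =>
    have e : ∑ n ∈ Finset.range N, a (n + h) - ∑ n ∈ Finset.range N, a (n + (h + 1))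
        = a h - a (N + h) := by
      have := Finset.sum_range_sub (fun n => a (n + h)) N
      rw [← Finset.sum_sub_distrib]
      have e2 : ∀ n, a (n + h) - a (n + (h + 1)) = -(a (n + 1 + h) - a (n + h)) := by
        intro n
        have : n + (h + 1) = n + 1 + h := by ring
        rw [this]; ring
      simp_rw [e2]
      rw [Finset.sum_neg_distrib, this, zero_add]
      ring
    calc ‖∑ n ∈ Finset.range N, a n - ∑ n ∈ Finset.range N, a (n + (h + 1))‖
        = ‖(∑ n ∈ Finset.range N, a n - ∑ n ∈ Finset.range N, a (n + h))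
            + (a h - a (N + h))‖ := by rw [← e]; congr 1; ring
      _ ≤ 2 * h + (1 + 1) := by
          refine (norm_add_le _ _).trans (add_le_add ih ((norm_sub_le _ _).trans
            (add_le_add (ha _) (ha _))))
      _ = 2 * ((h + 1 : ℕ) : ℝ) := by push_cast; ring

/-- the pointwise van der Corput inequality -/
lemma vdc_point {N H : ℕ} (hN : 0 < N) (hH : 0 < H) {a : ℕ → ℂ} (ha : ∀ n, ‖a n‖ ≤ 1) :
    ‖((N : ℂ))⁻¹ * ∑ n ∈ Finset.range N, a n‖ ^ 2 ≤ 4 * H / N +
      ((H : ℝ) ^ 2)⁻¹ * ∑ h ∈ Finset.range H, ∑ h' ∈ Finset.range H,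
        (((N : ℂ))⁻¹ * ∑ n ∈ Finset.range N, a (n + h) * conj (a (n + h'))).re := by
  have hN' : (0 : ℝ) < N := by exact_mod_cast hN
  have hH' : (0 : ℝ) < H := by exact_mod_cast hH
  set A : ℂ := ((N : ℂ))⁻¹ * ∑ n ∈ Finset.range N, a n with hA
  set v : ℕ → ℂ := fun n => ((H : ℂ))⁻¹ * ∑ h ∈ Finset.range H, a (n + h) with hv
  have hv1 : ∀ n, ‖v n‖ ≤ 1 := fun n => norm_avg_le fun h => ha _
  set B : ℂ := ((N : ℂ))⁻¹ * ∑ n ∈ Finset.range N, v n with hB
  have hA1 : ‖A‖ ≤ 1 := norm_avg_le ha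
  have hB1 : ‖B‖ ≤ 1 := norm_avg_le hv1
  -- A - B
  have hAB : ‖A - B‖ ≤ 2 * H / N := by
    have e : A - B = ((N : ℂ))⁻¹ * (((H : ℂ))⁻¹ * ∑ h ∈ Finset.range H,
        (∑ n ∈ Finset.range N, a n - ∑ n ∈ Finset.range N, a (n + h))) := by
      rw [Finset.sum_sub_distrib, Finset.sum_const, Finset.card_range, nsmul_eq_mul, hA, hB, hv]
      have hHc : (H : ℂ) ≠ 0 := by exact_mod_cast hH.ne'
      simp only
      rw [← Finset.mul_sum, Finset.sum_comm]
      field_simp
    rw [e, norm_mul, norm_inv, Complex.norm_natCast, norm_mul, norm_inv, Complex.norm_natCast]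
    have h1 : ‖∑ h ∈ Finset.range H,
        (∑ n ∈ Finset.range N, a n - ∑ n ∈ Finset.range N, a (n + h))‖ ≤ H * (2 * H) := by
      calc _ ≤ ∑ h ∈ Finset.range H,
            ‖∑ n ∈ Finset.range N, a n - ∑ n ∈ Finset.range N, a (n + h)‖ := norm_sum_le _ _
        _ ≤ ∑ h ∈ Finset.range H, (2 * H : ℝ) := by
            refine Finset.sum_le_sum fun h hh => (shift_sum ha).trans ?_
            have : h < H := Finset.mem_range.1 hh
            have : (h : ℝ) ≤ H := by exact_mod_cast this.le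
            linarith
        _ = H * (2 * H) := by simp
    calc (N : ℝ)⁻¹ * ((H : ℝ)⁻¹ * _) ≤ (N : ℝ)⁻¹ * ((H : ℝ)⁻¹ * (H * (2 * H))) := by
          gcongr
      _ = 2 * H / N := by field_simp
  have hsq : ‖A‖ ^ 2 ≤ 4 * H / N + ‖B‖ ^ 2 := by
    have h1 : ‖A‖ - ‖B‖ ≤ 2 * H / N := (norm_sub_norm_le A B).trans hAB
    have h2 : 0 ≤ 2 * (H : ℝ) / N := by positivity
    have e : ‖A‖ ^ 2 - ‖B‖ ^ 2 = (‖A‖ - ‖B‖) * (‖A‖ + ‖B‖) := by ring
    have h3 : (‖A‖ - ‖B‖) * (‖A‖ + ‖B‖) ≤ 2 * H / N * 2 := by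
      calc (‖A‖ - ‖B‖) * (‖A‖ + ‖B‖) ≤ (2 * H / N) * (‖A‖ + ‖B‖) :=
            mul_le_mul_of_nonneg_right h1 (by positivity)
        _ ≤ 2 * H / N * 2 := mul_le_mul_of_nonneg_left (by linarith) h2
    have e2 : 2 * (H : ℝ) / N * 2 = 4 * H / N := by ring
    linarith
  -- |B|^2 ≤ avg |v|^2
  have hB2 : ‖B‖ ^ 2 ≤ (N : ℝ)⁻¹ * ∑ n ∈ Finset.range N, ‖v n‖ ^ 2 := by
    have h1 : ‖∑ n ∈ Finset.range N, v n‖ ≤ ∑ n ∈ Finset.range N, ‖v n‖ := norm_sum_le _ _
    have h2 : (∑ n ∈ Finset.range N, ‖v n‖) ^ 2 ≤ N * ∑ n ∈ Finset.range N, ‖v n‖ ^ 2 := by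
      have := sq_sum_le_card_mul_sum_sq (s := Finset.range N) (f := fun n => ‖v n‖)
      rwa [Finset.card_range] at this
    rw [hB, norm_mul, norm_inv, Complex.norm_natCast, mul_pow]
    calc ((N : ℝ)⁻¹) ^ 2 * ‖∑ n ∈ Finset.range N, v n‖ ^ 2
        ≤ ((N : ℝ)⁻¹) ^ 2 * (N * ∑ n ∈ Finset.range N, ‖v n‖ ^ 2) := by
          gcongr
          exact (pow_le_pow_left₀ (norm_nonneg _) h1 2).trans h2
      _ = _ := by field_simp
  have hv2 : ∀ n, ‖v n‖ ^ 2 = ((H : ℝ) ^ 2)⁻¹ * ∑ h ∈ Finset.range H, ∑ h' ∈ Finset.range H,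
      (a (n + h) * conj (a (n + h'))).re := by
    intro n
    have h1 : ((‖v n‖ ^ 2 : ℝ) : ℂ) = v n * conj (v n) := by
      rw [Complex.mul_conj, Complex.normSq_eq_norm_sq]
    have h2 : v n * conj (v n) = (((H : ℝ) ^ 2)⁻¹ : ℝ) * ∑ h ∈ Finset.range H,
        ∑ h' ∈ Finset.range H, a (n + h) * conj (a (n + h')) := by
      rw [hv]
      simp only [map_mul, map_inv₀, map_sum, Complex.conj_natCast]
      rw [mul_mul_mul_comm, Finset.sum_mul_sum]
      push_cast
      ring
    have h3 := congrArg Complex.re (h1.trans h2)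
    rw [Complex.ofReal_re, Complex.re_ofReal_mul, Complex.re_sum] at h3
    rw [h3]
    congr 1
    refine Finset.sum_congr rfl fun h _ => ?_
    rw [Complex.re_sum]
  have hlast : (N : ℝ)⁻¹ * ∑ n ∈ Finset.range N, ‖v n‖ ^ 2 =
      ((H : ℝ) ^ 2)⁻¹ * ∑ h ∈ Finset.range H, ∑ h' ∈ Finset.range H,
        (((N : ℂ))⁻¹ * ∑ n ∈ Finset.range N, a (n + h) * conj (a (n + h'))).re := by
    simp_rw [hv2]
    have e : ∀ h h', (((N : ℂ))⁻¹ * ∑ n ∈ Finset.range N, a (n + h) * conj (a (n + h'))).re
        = (N : ℝ)⁻¹ * ∑ n ∈ Finset.range N, (a (n + h) * conj (a (n + h'))).re := by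
      intro h h'
      have : ((N : ℂ))⁻¹ = (((N : ℝ)⁻¹ : ℝ) : ℂ) := by push_cast; rfl
      rw [this, Complex.re_ofReal_mul, Complex.re_sum]
    simp_rw [e, ← Finset.mul_sum]
    rw [← mul_assoc, mul_comm ((N : ℝ)⁻¹), mul_assoc]
    congr 2
    rw [Finset.sum_comm]
    refine Finset.sum_congr rfl fun h _ => ?_
    rw [Finset.sum_comm]
  linarith

/-- Cauchy–Schwarz for one integral -/
lemma sq_int_le {μ : Measure X} [IsProbabilityMeasure μ] {w A : X → ℂ} (hw : U w) (hA : U A) :
    ‖∫ x, w x * A x ∂μ‖ ^ 2 ≤ ∫ x, ‖A x‖ ^ 2 ∂μ := by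
  have hAi : Integrable (fun x => ‖A x‖) μ := hA.integrable.norm
  have hA2i : Integrable (fun x => ‖A x‖ ^ 2) μ := by
    refine Integrable.of_bound (hA.1.norm.pow_const 2).aestronglyMeasurable 1
      (Eventually.of_forall fun x => ?_)
    rw [norm_pow, norm_norm]
    exact pow_le_one₀ (norm_nonneg _) (hA.2 x)
  have h1 : ‖∫ x, w x * A x ∂μ‖ ≤ ∫ x, ‖A x‖ ∂μ := by
    refine (norm_integral_le_integral_norm _).trans ?_
    refine integral_mono (hw.mul hA).integrable.norm hAi fun x => ?_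
    simp only [norm_mul]
    exact mul_le_of_le_one_left (norm_nonneg _) (hw.2 x)
  set m := ∫ x, ‖A x‖ ∂μ with hm
  have h2 : 0 ≤ ∫ x, (‖A x‖ - m) ^ 2 ∂μ := integral_nonneg fun x => sq_nonneg _
  have h3 : ∫ x, (‖A x‖ - m) ^ 2 ∂μ = ∫ x, ‖A x‖ ^ 2 ∂μ - m ^ 2 := by
    have e : ∀ x, (‖A x‖ - m) ^ 2 = ‖A x‖ ^ 2 - (2 * m * ‖A x‖ - m ^ 2) := by intro x; ring
    simp_rw [e]
    have hc : Integrable (fun _ : X => m ^ 2) μ := integrable_const _
    have hb : Integrable (fun x => 2 * m * ‖A x‖) μ := hAi.const_mul _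
    have e1 : ∫ x, (‖A x‖ ^ 2 - (2 * m * ‖A x‖ - m ^ 2)) ∂μ
        = ∫ x, ‖A x‖ ^ 2 ∂μ - ∫ x, (2 * m * ‖A x‖ - m ^ 2) ∂μ := integral_sub hA2i (hb.sub hc)
    have e2 : ∫ x, (2 * m * ‖A x‖ - m ^ 2) ∂μ = ∫ x, 2 * m * ‖A x‖ ∂μ - ∫ x, m ^ 2 ∂μ :=
      integral_sub hb hc
    rw [e1, e2, integral_const_mul, ← hm]
    simp
    ring
  have h4 : ‖∫ x, w x * A x ∂μ‖ ^ 2 ≤ m ^ 2 := pow_le_pow_left₀ (norm_nonneg _) h1 2
  linarith

/-- the van der Corput inequality -/
lemma vdc {μ : Measure X} [IsProbabilityMeasure μ] {w : X → ℂ} (hw : U w) {u : ℕ → X → ℂ}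
    (hu : ∀ n, U (u n)) {N H : ℕ} (hN : 0 < N) (hH : 0 < H) :
    ‖((N : ℂ))⁻¹ * ∑ n ∈ Finset.range N, ∫ x, w x * u n x ∂μ‖ ^ 2 ≤ 4 * H / N +
      ((H : ℝ) ^ 2)⁻¹ * ∑ h ∈ Finset.range H, ∑ h' ∈ Finset.range H,
        ‖((N : ℂ))⁻¹ * ∑ n ∈ Finset.range N, ∫ x, u (n + h) x * conj (u (n + h') x) ∂μ‖ := by
  set A : X → ℂ := fun x => ((N : ℂ))⁻¹ * ∑ n ∈ Finset.range N, u n x with hA
  have hAU : U A := by
    refine ⟨?_, fun x => norm_avg_le fun n => (hu n).2 x⟩
    exact measurable_const.mul (Finset.measurable_sum _ fun n _ => (hu n).1)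
  have e1 : ((N : ℂ))⁻¹ * ∑ n ∈ Finset.range N, ∫ x, w x * u n x ∂μ = ∫ x, w x * A x ∂μ := by
    rw [← integral_finsetSum _ fun n _ => (hw.mul (hu n)).integrable, ← integral_const_mul]
    refine integral_congr_ae (Eventually.of_forall fun x => ?_)
    simp only [hA]
    rw [← Finset.mul_sum]
    ring
  rw [e1]
  have hint : ∀ n h h', Integrable (fun x => u (n + h) x * conj (u (n + h') x)) μ :=
    fun n h h' => ((hu _).mul (hu _).conj).integrable
  have e2 : ∀ h h', ∫ x, (((N : ℂ))⁻¹ * ∑ n ∈ Finset.range N,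
        u (n + h) x * conj (u (n + h') x)).re ∂μ
      = (((N : ℂ))⁻¹ * ∑ n ∈ Finset.range N, ∫ x, u (n + h) x * conj (u (n + h') x) ∂μ).re := by
    intro h h'
    rw [← integral_finsetSum _ fun n _ => hint n h h', ← integral_const_mul]
    have := integral_re (𝕜 := ℂ) (μ := μ) (f := fun x => ((N : ℂ))⁻¹ * ∑ n ∈ Finset.range N,
        u (n + h) x * conj (u (n + h') x))
        ((integrable_finsetSum _ fun n _ => hint n h h').const_mul _)
    simpa using this
  have hint2 : ∀ h h', Integrable (fun x => (((N : ℂ))⁻¹ * ∑ n ∈ Finset.range N,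
        u (n + h) x * conj (u (n + h') x)).re) μ := fun h h' =>
    ((integrable_finsetSum _ fun n _ => hint n h h').const_mul _).re
  calc ‖∫ x, w x * A x ∂μ‖ ^ 2 ≤ ∫ x, ‖A x‖ ^ 2 ∂μ := sq_int_le hw hAU
    _ ≤ ∫ x, (4 * H / N + ((H : ℝ) ^ 2)⁻¹ * ∑ h ∈ Finset.range H, ∑ h' ∈ Finset.range H,
        (((N : ℂ))⁻¹ * ∑ n ∈ Finset.range N, u (n + h) x * conj (u (n + h') x)).re) ∂μ := by
        refine integral_mono_of_nonneg (Eventually.of_forall fun x => by positivity) ?_
          (Eventually.of_forall fun x => vdc_point hN hH fun n => (hu n).2 x)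
        exact (integrable_const _).add ((integrable_finsetSum _ fun h _ =>
          integrable_finsetSum _ fun h' _ => hint2 h h').const_mul _)
    _ = 4 * H / N + ((H : ℝ) ^ 2)⁻¹ * ∑ h ∈ Finset.range H, ∑ h' ∈ Finset.range H,
        (((N : ℂ))⁻¹ * ∑ n ∈ Finset.range N,
          ∫ x, u (n + h) x * conj (u (n + h') x) ∂μ).re := by
        rw [integral_add (integrable_const _) ((integrable_finsetSum _ fun h _ =>
          integrable_finsetSum _ fun h' _ => hint2 h h').const_mul _), integral_const_mul,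
          integral_finsetSum _ fun h _ => integrable_finsetSum _ fun h' _ => hint2 h h']
        congr 1
        · simp
        · congr 1
          refine Finset.sum_congr rfl fun h _ => ?_
          rw [integral_finsetSum _ fun h' _ => hint2 h h']
          exact Finset.sum_congr rfl fun h' _ => e2 h h'
    _ ≤ _ := by
        gcongr with h _ h' _
        exact Complex.re_le_norm _

end MPd26.PET
end

section
/-!
# MP_d26cd8_an, PET: the linear families
-/
set_option autoImplicit false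

open MeasureTheory Filter Topology Polynomial
open scoped ComplexConjugate

namespace MPd26.PET

variable {X : Type} [MeasurableSpace X]

/-- The properties of (the powers `N k f = ‖f‖_k^{2^k}` of) the Host–Kra seminorms that are
used in PET induction. -/
structure HKN (μ : Measure X) (T : Equiv.Perm X) (N : ℕ → (X → ℂ) → ℝ) : Prop where
  one : ∀ f, U f → ‖∫ x, f x ∂μ‖ ^ 2 ≤ N 1 f
  succ : ∀ k, 1 ≤ k → ∀ f, U f → Tendsto (fun H : ℕ => ((H : ℝ))⁻¹ *
    ∑ h ∈ Finset.range H, N k (fun x => f ((⇑T)^[h] x) * conj (f x))) atTop (𝓝 (N (k + 1) f))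
  nonneg : ∀ k, 1 ≤ k → ∀ f, U f → 0 ≤ N k f
  inv : ∀ k, 1 ≤ k → ∀ f, U f → N k (fun x => f (T x)) = N k f
  cj : ∀ k, 1 ≤ k → ∀ f, U f → N k (fun x => conj (f x)) = N k f

variable {μ : Measure X} {T : Equiv.Perm X} {N : ℕ → (X → ℂ) → ℝ}

lemma HKN.zinv (hT : MP μ T) (hN : HKN μ T N) {k : ℕ} (hk : 1 ≤ k) {f : X → ℂ} (hf : U f)
    (z : ℤ) : N k (fun x => f ((T ^ z) x)) = N k f := by
  induction z using Int.induction_on with
  | zero => simp
  | succ n ih =>
    have h := hN.inv k hk (fun x => f ((T ^ (n : ℤ)) x)) (hf.comp (hT.zpow _).m)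
    rw [ih] at h
    rw [← h]
    congr 1
  | pred n ih =>
    have h := hN.inv k hk (fun x => f ((T ^ (-(n : ℤ) - 1)) x)) (hf.comp (hT.zpow _).m)
    rw [← h, ← ih]
    congr 1
    funext x
    congr 1
    rw [← Equiv.Perm.mul_apply, ← zpow_add_one]
    congr 2
    ring

/-- counting differences -/
lemma sum_diff_le {A : ℕ → ℝ} (hA : ∀ n, 0 ≤ A n) (C H : ℕ) (hC : 0 < C) :
    ∑ h ∈ Finset.range H, ∑ h' ∈ Finset.range H, A (C * ((h : ℤ) - (h' : ℤ)).natAbs) ≤
      2 * H * ∑ e ∈ Finset.range (C * H), A e := by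
  have h1 : ∑ d ∈ Finset.range H, A (C * d) ≤ ∑ e ∈ Finset.range (C * H), A e := by
    rw [← Finset.sum_image (f := A) (g := fun d => C * d) (s := Finset.range H)]
    · refine Finset.sum_le_sum_of_subset_of_nonneg ?_ fun _ _ _ => hA _
      intro e he
      obtain ⟨d, hd, rfl⟩ := Finset.mem_image.1 he
      exact Finset.mem_range.2 (Nat.mul_lt_mul_of_pos_left (Finset.mem_range.1 hd) hC)
    · intro a _ b _ hab
      exact Nat.eq_of_mul_eq_mul_left hC hab
  have h2 : ∀ h ∈ Finset.range H, ∑ h' ∈ Finset.range H, A (C * ((h : ℤ) - (h' : ℤ)).natAbs) ≤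
      2 * ∑ d ∈ Finset.range H, A (C * d) := by
    intro h hh
    rw [← Finset.sum_filter_add_sum_filter_not (Finset.range H) (fun h' => h' ≤ h), two_mul]
    refine add_le_add ?_ ?_
    · calc ∑ h' ∈ (Finset.range H).filter (fun h' => h' ≤ h), A (C * ((h : ℤ) - (h' : ℤ)).natAbs)
          = ∑ h' ∈ (Finset.range H).filter (fun h' => h' ≤ h), A (C * (h - h')) := by
            refine Finset.sum_congr rfl fun h' hh' => ?_
            have : h' ≤ h := (Finset.mem_filter.1 hh').2
            congr 2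
            omega
        _ = ∑ d ∈ ((Finset.range H).filter (fun h' => h' ≤ h)).image (fun h' => h - h'),
              A (C * d) := by
            rw [Finset.sum_image]
            intro a ha b hb hab
            have ha' : a ≤ h := (Finset.mem_filter.1 ha).2
            have hb' : b ≤ h := (Finset.mem_filter.1 hb).2
            simp only at hab
            omega
        _ ≤ _ := by
            refine Finset.sum_le_sum_of_subset_of_nonneg ?_ fun _ _ _ => hA _
            intro e he
            obtain ⟨d, hd, rfl⟩ := Finset.mem_image.1 he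
            have := Finset.mem_range.1 hh
            exact Finset.mem_range.2 (by omega)
    · calc ∑ h' ∈ (Finset.range H).filter (fun h' => ¬ h' ≤ h), A (C * ((h : ℤ) - (h' : ℤ)).natAbs)
          = ∑ h' ∈ (Finset.range H).filter (fun h' => ¬ h' ≤ h), A (C * (h' - h)) := by
            refine Finset.sum_congr rfl fun h' hh' => ?_
            have : ¬ h' ≤ h := (Finset.mem_filter.1 hh').2
            congr 2
            omega
        _ = ∑ d ∈ ((Finset.range H).filter (fun h' => ¬ h' ≤ h)).image (fun h' => h' - h),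
              A (C * d) := by
            rw [Finset.sum_image]
            intro a ha b hb hab
            have ha' : ¬ a ≤ h := (Finset.mem_filter.1 ha).2
            have hb' : ¬ b ≤ h := (Finset.mem_filter.1 hb).2
            simp only at hab
            omega
        _ ≤ _ := by
            refine Finset.sum_le_sum_of_subset_of_nonneg ?_ fun _ _ _ => hA _
            intro e he
            obtain ⟨d, hd, rfl⟩ := Finset.mem_image.1 he
            have := Finset.mem_range.1 (Finset.mem_filter.1 hd).1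
            exact Finset.mem_range.2 (by omega)
  calc ∑ h ∈ Finset.range H, ∑ h' ∈ Finset.range H, A (C * ((h : ℤ) - (h' : ℤ)).natAbs)
      ≤ ∑ h ∈ Finset.range H, 2 * ∑ d ∈ Finset.range H, A (C * d) := Finset.sum_le_sum h2
    _ = 2 * H * ∑ d ∈ Finset.range H, A (C * d) := by
        rw [Finset.sum_const, Finset.card_range, nsmul_eq_mul]; ring
    _ ≤ _ := by gcongr

/-- the average over pairs of differences -/
lemma pair_avg (hT : MP μ T) (hN : HKN μ T N) {k : ℕ} (hk : 1 ≤ k) {f : X → ℂ} (hf : U f)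
    (c : ℤ) (hc : c ≠ 0) (δ : ℝ) (hδ : 0 < δ) (hfδ : N (k + 1) f ≤ δ) :
    ∃ H0 : ℕ, ∀ H ≥ H0, ((H : ℝ) ^ 2)⁻¹ * ∑ h ∈ Finset.range H, ∑ h' ∈ Finset.range H,
      N k (fun x => f ((T ^ (c * (h : ℤ))) x) * conj (f ((T ^ (c * (h' : ℤ))) x)))
        ≤ 4 * c.natAbs * δ := by
  set A : ℤ → ℝ := fun z => N k (fun x => f ((T ^ z) x) * conj (f x)) with hA
  have hAU : ∀ z : ℤ, U (fun x => f ((T ^ z) x) * conj (f x)) := fun z =>
    (hf.comp (hT.zpow z).m).mul hf.conj
  have hA0 : ∀ z, 0 ≤ A z := fun z => hN.nonneg k hk _ (hAU z)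
  have hAneg : ∀ z, A (-z) = A z := by
    intro z
    have h1 := hN.zinv hT hk (hAU (-z)) z
    have h2 := hN.cj k hk _ (hAU z)
    rw [hA]
    simp only
    rw [← h1, ← h2]
    congr 1
    funext x
    have : (T ^ (-z)) ((T ^ z) x) = x := by
      rw [← Equiv.Perm.mul_apply, ← zpow_add]; simp
    rw [this, map_mul, Complex.conj_conj]
    ring
  have hAabs : ∀ z : ℤ, A z = A (z.natAbs : ℤ) := by
    intro z
    rcases Int.natAbs_eq z with h | h
    · rw [← h]
    · have : ((z.natAbs : ℕ) : ℤ) = -z := by omega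
      rw [this, hAneg]
  have hF : ∀ h h' : ℕ, N k (fun x => f ((T ^ (c * (h : ℤ))) x) *
      conj (f ((T ^ (c * (h' : ℤ))) x))) = A ((c.natAbs * ((h : ℤ) - (h' : ℤ)).natAbs : ℕ) : ℤ) := by
    intro h h'
    rw [← Int.natAbs_mul, ← hAabs]
    have h1 := hN.zinv hT hk (hAU (c * ((h : ℤ) - (h' : ℤ)))) (c * (h' : ℤ))
    rw [hA]
    simp only
    rw [← h1]
    congr 1
    funext x
    congr 2
    rw [← Equiv.Perm.mul_apply, ← zpow_add]
    congr 2
    ring
  have hC : 0 < c.natAbs := Int.natAbs_pos.2 hc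
  have hlim := hN.succ k hk f hf
  have hlt : ∀ᶠ H : ℕ in atTop, ((H : ℝ))⁻¹ *
      ∑ h ∈ Finset.range H, N k (fun x => f ((⇑T)^[h] x) * conj (f x)) < 2 * δ :=
    hlim.eventually (gt_mem_nhds (by linarith))
  obtain ⟨H0, hH0⟩ := eventually_atTop.1 hlt
  refine ⟨max H0 1, fun H hH => ?_⟩
  have hH1 : 1 ≤ H := le_trans (le_max_right _ _) hH
  have hH2 : H0 ≤ c.natAbs * H :=
    (le_trans (le_max_left _ _) hH).trans (Nat.le_mul_of_pos_left _ hC)
  have h3 := hH0 (c.natAbs * H) hH2
  simp_rw [hF]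
  have h4 := sum_diff_le (A := fun n => A (n : ℤ)) (fun n => hA0 _) c.natAbs H hC
  have h5 : ∑ e ∈ Finset.range (c.natAbs * H), A (e : ℤ)
      = ∑ h ∈ Finset.range (c.natAbs * H), N k (fun x => f ((⇑T)^[h] x) * conj (f x)) := by
    refine Finset.sum_congr rfl fun e _ => ?_
    rw [hA]
    simp only
    congr 1
  rw [← h5] at h3
  have hHr : (0 : ℝ) < H := by exact_mod_cast hH1
  have hCr : (0 : ℝ) < c.natAbs := by exact_mod_cast hC
  push_cast at h3
  have h6 : ∑ e ∈ Finset.range (c.natAbs * H), A (e : ℤ) ≤ c.natAbs * H * (2 * δ) := by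
    rw [inv_mul_lt_iff₀ (by positivity)] at h3
    exact h3.le
  calc ((H : ℝ) ^ 2)⁻¹ * ∑ h ∈ Finset.range H, ∑ h' ∈ Finset.range H,
        A ((c.natAbs * ((h : ℤ) - (h' : ℤ)).natAbs : ℕ) : ℤ)
      ≤ ((H : ℝ) ^ 2)⁻¹ * (2 * H * ∑ e ∈ Finset.range (c.natAbs * H), A (e : ℤ)) := by
        gcongr
    _ ≤ ((H : ℝ) ^ 2)⁻¹ * (2 * H * (c.natAbs * H * (2 * δ))) := by gcongr
    _ = 4 * c.natAbs * δ := by field_simp; ring

/-- linear families -/
lemma lin [IsProbabilityMeasure μ] (hT : MP μ T) (hN : HKN μ T N) (k : ℕ) :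
    ∀ (ι : Type) [Fintype ι] (c : ι → ℤ) (j : ι), Fintype.card ι ≤ k + 1 →
      (∀ i, i ≠ j → c i ≠ c j) → ∀ ε : ℝ, 0 < ε → ∃ δ : ℝ, 0 < δ ∧ ∀ f : X → ℂ, U f →
      N (k + 1) f ≤ δ → ∃ M0 : ℕ, ∀ M ≥ M0, ∀ g : ι → X → ℂ, (∀ i, U (g i)) → g j = f →
      ‖((M : ℂ))⁻¹ * ∑ n ∈ Finset.range M, ∫ x, ∏ i, g i ((T ^ (c i * (n : ℤ))) x) ∂μ‖ ≤ ε := by
  classical
  induction k with
  | zero =>
    intro ι _ c j hcard hc ε hε
    refine ⟨ε ^ 2, by positivity, fun f hf hfδ => ⟨0, fun M _ g hg hgj => ?_⟩⟩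
    have huniq : ∀ i, i = j := fun i => Fintype.card_le_one_iff.1 hcard i j
    have hu : (Finset.univ : Finset ι) = {j} := by
      ext i; simp [huniq i]
    have e : ∀ n : ℕ, ∫ x, ∏ i, g i ((T ^ (c i * (n : ℤ))) x) ∂μ = ∫ x, f x ∂μ := by
      intro n
      rw [hu]
      simp only [Finset.prod_singleton, hgj]
      exact (hT.zpow _).integral_comp f
    simp_rw [e]
    have h1 := hN.one f hf
    have h2 : ‖∫ x, f x ∂μ‖ ≤ ε := by
      have : ‖∫ x, f x ∂μ‖ ^ 2 ≤ ε ^ 2 := h1.trans hfδ
      exact (pow_le_pow_iff_left₀ (norm_nonneg _) hε.le two_ne_zero).1 this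
    rw [Finset.sum_const, Finset.card_range, nsmul_eq_mul, norm_mul, norm_mul, norm_inv,
      Complex.norm_natCast]
    rcases Nat.eq_zero_or_pos M with h | h
    · subst h; simp; exact hε.le
    · have : (0 : ℝ) < M := by exact_mod_cast h
      rw [← mul_assoc, inv_mul_cancel₀ this.ne', one_mul]
      exact h2
  | succ k ih =>
    intro ι _ c j hcard hc ε hε
    -- the base
    obtain ⟨cb, hcb, hcard'⟩ : ∃ cb : ℤ, c j ≠ cb ∧
        Fintype.card {i : ι // c i ≠ cb} ≤ k + 1 := by
      by_cases hb : ∃ b, b ≠ j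
      · obtain ⟨b, hb⟩ := hb
        refine ⟨c b, (hc b hb).symm, ?_⟩
        have : Fintype.card {i : ι // c i ≠ c b} < Fintype.card ι :=
          Fintype.card_subtype_lt (x := b) (by simp)
        omega
      · push Not at hb
        refine ⟨c j + 1, by omega, ?_⟩
        have h1 : Fintype.card {i : ι // c i ≠ c j + 1} ≤ Fintype.card ι :=
          Fintype.card_subtype_le _
        have h2 : Fintype.card ι ≤ 1 := Fintype.card_le_one_iff.2 fun a b => by rw [hb a, hb b]
        omega
    set c' : {i : ι // c i ≠ cb} → ℤ := fun i => c i - cb with hc'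
    set j' : {i : ι // c i ≠ cb} := ⟨j, hcb⟩ with hj'
    have hc'j : c' j' ≠ 0 := sub_ne_zero.2 hcb
    have hcc : ∀ i, i ≠ j' → c' i ≠ c' j' := by
      intro i hi h
      have h1 : (i : ι) ≠ j := fun h2 => hi (Subtype.ext h2)
      exact hc i h1 (by
        have : c i - cb = c j - cb := h
        linarith)
    obtain ⟨δ1, hδ1, hih⟩ := ih {i : ι // c i ≠ cb} c' j' hcard' hcc (ε ^ 2 / 4) (by positivity)
    set C := (c' j').natAbs with hC
    have hCpos : (0 : ℝ) < C := by exact_mod_cast Int.natAbs_pos.2 hc'j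
    refine ⟨δ1 * ε ^ 2 / (16 * C), by positivity, fun f hf hfδ => ?_⟩
    obtain ⟨H0, hH0⟩ := pair_avg hT hN (k := k + 1) (by omega) hf (c' j') hc'j
      (δ1 * ε ^ 2 / (16 * C)) (by positivity) hfδ
    set H := max H0 1 with hH
    have hH1 : 1 ≤ H := le_max_right _ _
    have hHH := hH0 H (le_max_left _ _)
    set F : ℕ → ℕ → X → ℂ := fun h h' x => f ((T ^ (c' j' * (h : ℤ))) x) *
      conj (f ((T ^ (c' j' * (h' : ℤ))) x)) with hF
    have hFU : ∀ h h', U (F h h') := fun h h' =>
      (hf.comp (hT.zpow _).m).mul (hf.comp (hT.zpow _).m).conj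
    -- bound for each pair
    have hpair : ∀ h h' : ℕ, ∃ M0 : ℕ, ∀ M ≥ M0, ∀ g : {i : ι // c i ≠ cb} → X → ℂ,
        (∀ i, U (g i)) → g j' = F h h' →
        ‖((M : ℂ))⁻¹ * ∑ n ∈ Finset.range M, ∫ x, ∏ i, g i ((T ^ (c' i * (n : ℤ))) x) ∂μ‖
          ≤ ε ^ 2 / 4 + δ1⁻¹ * N (k + 1) (F h h') := by
      intro h h'
      have h0 := hN.nonneg (k + 1) (by omega) _ (hFU h h')
      by_cases hle : N (k + 1) (F h h') ≤ δ1
      · obtain ⟨M0, hM0⟩ := hih (F h h') (hFU h h') hle
        refine ⟨M0, fun M hM g hg hgj => (hM0 M hM g hg hgj).trans ?_⟩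
        have : 0 ≤ δ1⁻¹ * N (k + 1) (F h h') := by positivity
        linarith
      · refine ⟨0, fun M _ g hg hgj => ?_⟩
        push Not at hle
        have h1 : 1 ≤ δ1⁻¹ * N (k + 1) (F h h') := by
          rw [← div_eq_inv_mul, one_le_div hδ1]; exact hle.le
        have h2 : ‖((M : ℂ))⁻¹ * ∑ n ∈ Finset.range M,
            ∫ x, ∏ i, g i ((T ^ (c' i * (n : ℤ))) x) ∂μ‖ ≤ 1 :=
          norm_avg_le fun n => norm_int_le (U.prod _ fun i _ => (hg i).comp (hT.zpow _).m)
        have h3 : 0 ≤ ε ^ 2 / 4 := by positivity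
        linarith
    choose M0 hM0 using hpair
    obtain ⟨M1, hM1⟩ : ∃ M1 : ℕ, ∀ h < H, ∀ h' < H, M0 h h' ≤ M1 := by
      refine ⟨∑ h ∈ Finset.range H, ∑ h' ∈ Finset.range H, M0 h h', fun h hh h' hh' => ?_⟩
      calc M0 h h' ≤ ∑ h' ∈ Finset.range H, M0 h h' :=
            Finset.single_le_sum (f := fun h' => M0 h h') (fun _ _ => Nat.zero_le _)
              (Finset.mem_range.2 hh')
        _ ≤ _ := Finset.single_le_sum (f := fun h => ∑ h' ∈ Finset.range H, M0 h h')
              (fun _ _ => Nat.zero_le _) (Finset.mem_range.2 hh)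
    obtain ⟨M2, hM2⟩ := exists_nat_ge (16 * (H : ℝ) / ε ^ 2)
    refine ⟨max (max M1 M2) 1, fun M hM g hg hgj => ?_⟩
    have hMpos : 0 < M := lt_of_lt_of_le Nat.one_pos ((le_max_right _ _).trans hM)
    have hMM1 : M1 ≤ M := ((le_max_left _ _).trans (le_max_left _ _)).trans hM
    have hMM2 : M2 ≤ M := ((le_max_right _ _).trans (le_max_left _ _)).trans hM
    set w : X → ℂ := fun x => ∏ i ∈ Finset.univ.filter (fun i => ¬ c i ≠ cb), g i x with hw
    set u : ℕ → X → ℂ := fun n x => ∏ i : {i : ι // c i ≠ cb},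
      g i ((T ^ (c' i * (n : ℤ))) x) with hu
    have hwU : U w := U.prod _ fun i _ => hg i
    have huU : ∀ n, U (u n) := fun n => U.prod _ fun i _ => (hg i).comp (hT.zpow _).m
    have e1 : ∀ n : ℕ, ∫ x, ∏ i, g i ((T ^ (c i * (n : ℤ))) x) ∂μ = ∫ x, w x * u n x ∂μ := by
      intro n
      rw [← (hT.zpow (-(cb * (n : ℤ)))).integral_comp]
      refine integral_congr_ae (Eventually.of_forall fun x => ?_)
      simp only [hw, hu]
      rw [← Finset.prod_filter_mul_prod_filter_not Finset.univ (fun i => c i ≠ cb), mul_comm]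
      congr 1
      · refine Finset.prod_congr rfl fun i hi => ?_
        have : c i = cb := by simpa using (Finset.mem_filter.1 hi).2
        congr 1
        rw [← Equiv.Perm.mul_apply, ← zpow_add, this]
        simp
      · rw [← Finset.prod_subtype_eq_prod_filter]
        rw [Finset.subtype_univ]
        refine Finset.prod_congr rfl fun i _ => ?_
        congr 1
        rw [← Equiv.Perm.mul_apply, ← zpow_add, hc']
        congr 2
        ring
    simp_rw [e1]
    have hvdc := vdc (μ := μ) hwU huU hMpos hH1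
    have hMr : (0 : ℝ) < M := by exact_mod_cast hMpos
    have hHr : (0 : ℝ) < H := by exact_mod_cast hH1
    have hsum : ∀ h ∈ Finset.range H, ∀ h' ∈ Finset.range H,
        ‖((M : ℂ))⁻¹ * ∑ n ∈ Finset.range M, ∫ x, u (n + h) x * conj (u (n + h') x) ∂μ‖
          ≤ ε ^ 2 / 4 + δ1⁻¹ * N (k + 1) (F h h') := by
      intro h hh h' hh'
      have := hM0 h h' M ((hM1 h (Finset.mem_range.1 hh) h' (Finset.mem_range.1 hh')).trans hMM1)
        (fun i x => g i ((T ^ (c' i * (h : ℤ))) x) * conj (g i ((T ^ (c' i * (h' : ℤ))) x)))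
        (fun i => ((hg i).comp (hT.zpow _).m).mul ((hg i).comp (hT.zpow _).m).conj)
        (by
          funext x
          simp only [hF, hj', hgj])
      refine le_trans (le_of_eq ?_) this
      congr 2
      refine Finset.sum_congr rfl fun n _ => ?_
      refine integral_congr_ae (Eventually.of_forall fun x => ?_)
      simp only [hu]
      rw [map_prod, ← Finset.prod_mul_distrib]
      refine Finset.prod_congr rfl fun i _ => ?_
      have e3 : ∀ m : ℕ, (T ^ (c' i * ((n + m : ℕ) : ℤ))) x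
          = (T ^ (c' i * (m : ℤ))) ((T ^ (c' i * (n : ℤ))) x) := by
        intro m
        rw [← Equiv.Perm.mul_apply, ← zpow_add]
        congr 2
        push_cast
        ring
      rw [e3, e3]
    have hfin : ‖((M : ℂ))⁻¹ * ∑ n ∈ Finset.range M, ∫ x, w x * u n x ∂μ‖ ^ 2 ≤ ε ^ 2 := by
      calc _ ≤ 4 * H / M + ((H : ℝ) ^ 2)⁻¹ * ∑ h ∈ Finset.range H, ∑ h' ∈ Finset.range H,
            ‖((M : ℂ))⁻¹ * ∑ n ∈ Finset.range M, ∫ x, u (n + h) x * conj (u (n + h') x) ∂μ‖ :=
            hvdc
        _ ≤ 4 * H / M + ((H : ℝ) ^ 2)⁻¹ * ∑ h ∈ Finset.range H, ∑ h' ∈ Finset.range H,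
            (ε ^ 2 / 4 + δ1⁻¹ * N (k + 1) (F h h')) := by
            gcongr with h hh h' hh'
            exact hsum h hh h' hh'
        _ = 4 * H / M + ε ^ 2 / 4 + δ1⁻¹ * (((H : ℝ) ^ 2)⁻¹ * ∑ h ∈ Finset.range H,
            ∑ h' ∈ Finset.range H, N (k + 1) (F h h')) := by
            simp only [Finset.sum_add_distrib, Finset.sum_const, Finset.card_range,
              nsmul_eq_mul, ← Finset.mul_sum]
            field_simp
            ring
        _ ≤ ε ^ 2 / 4 + ε ^ 2 / 4 + δ1⁻¹ * (4 * C * (δ1 * ε ^ 2 / (16 * C))) := by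
            have h1 : 4 * (H : ℝ) / M ≤ ε ^ 2 / 4 := by
              have h2 : 16 * (H : ℝ) / ε ^ 2 ≤ M := hM2.trans (by exact_mod_cast hMM2)
              rw [div_le_iff₀ (by positivity)] at h2
              rw [div_le_iff₀ hMr]
              linarith
            have h3 : 0 ≤ δ1⁻¹ := by positivity
            gcongr
        _ = 3 / 4 * ε ^ 2 := by field_simp; ring
        _ ≤ ε ^ 2 := by nlinarith [sq_nonneg ε]
    exact (pow_le_pow_iff_left₀ (norm_nonneg _) hε.le two_ne_zero).1 hfin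

end MPd26.PET
end

section
/-!
# MP_d26cd8_an, PET: polynomial families and their weights
-/
set_option autoImplicit false

open Polynomial

namespace MPd26.PET

/-- for a polynomial of degree at least two, at most one shift is within a constant of a given
polynomial -/
lemma shift_unique {P Q : ℤ[X]} (hQ : 2 ≤ Q.natDegree) {a b : ℤ}
    (ha : (P - taylor a Q).natDegree = 0) (hb : (P - taylor b Q).natDegree = 0) : a = b := by
  by_contra hab
  set R := taylor b Q with hR
  have hRd : R.natDegree = Q.natDegree := natDegree_taylor _ _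
  obtain ⟨c1, hc1⟩ := natDegree_eq_zero.1 ha
  obtain ⟨c2, hc2⟩ := natDegree_eq_zero.1 hb
  have h1 : taylor (a - b) R = R + C (c2 - c1) := by
    rw [hR, taylor_taylor, sub_add_cancel, C_sub, hc1, hc2]
    ring
  have h2 : ∀ x : ℤ, R.eval (x + (a - b)) = R.eval x + (c2 - c1) := by
    intro x
    rw [← taylor_eval, h1, eval_add, eval_C]
  have h3 : ∀ k : ℕ, R.eval ((a - b) * k) = R.eval 0 + k * (c2 - c1) := by
    intro k
    induction k with
    | zero => simp
    | succ k ih =>
      have : (a - b) * ((k + 1 : ℕ) : ℤ) = (a - b) * k + (a - b) := by push_cast; ring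
      rw [this, h2, ih]
      push_cast
      ring
  have h4 : R.comp (C (a - b) * X) = C (R.eval 0) + C (c2 - c1) * X := by
    refine eq_of_infinite_eval_eq _ _ ?_
    refine Set.Infinite.mono (s := Set.range (fun k : ℕ => (k : ℤ))) ?_
      (Set.infinite_range_of_injective fun a b h => by exact_mod_cast h)
    rintro _ ⟨k, rfl⟩
    simp only [Set.mem_ofPred_eq, eval_comp, eval_mul, eval_C, eval_X, eval_add]
    rw [h3]
    ring
  have h5 := congrArg natDegree h4
  rw [natDegree_comp, natDegree_C_mul_X _ (sub_ne_zero.2 hab), mul_one, hRd] at h5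
  have h6 : (C (R.eval 0) + C (c2 - c1) * X : ℤ[X]).natDegree ≤ 1 := by
    refine natDegree_add_le_of_degree_le (by simp) ?_
    exact (natDegree_C_mul_le _ _).trans natDegree_X_le
  omega

/-- degrees and leading coefficients -/
noncomputable def Eset {ι : Type} [Fintype ι] (r : ι → ℤ[X]) : Finset (ℕ × ℤ) :=
  open Classical in Finset.univ.image fun i => ((r i).natDegree, (r i).leadingCoeff)

/-- the weight of a family -/
noncomputable def W {ι : Type} [Fintype ι] (r : ι → ℤ[X]) : ℕ →₀ ℕ :=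
  ∑ e ∈ Eset r, Finsupp.single e.1 1

lemma mem_Eset {ι : Type} [Fintype ι] (r : ι → ℤ[X]) (d : ℕ) (c : ℤ) :
    (d, c) ∈ Eset r ↔ ∃ i, (r i).natDegree = d ∧ (r i).leadingCoeff = c := by
  unfold Eset
  simp

lemma W_apply {ι : Type} [Fintype ι] (r : ι → ℤ[X]) (d : ℕ) :
    W r d = ((Eset r).filter fun e => e.1 = d).card := by
  classical
  unfold W
  rw [Finsupp.finsetSum_apply, Finset.card_filter]
  refine Finset.sum_congr rfl fun e _ => ?_
  rw [Finsupp.single_apply]

/-- the order on weights -/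
def WLt (x y : ℕ →₀ ℕ) : Prop := Finsupp.Lex (fun a b : ℕ => b < a) (fun a b : ℕ => a < b) x y

lemma wf_WLt : WellFounded WLt := by
  have : Std.Trichotomous (fun a b : ℕ => b < a) := ⟨fun a b h1 h2 => by omega⟩
  exact Finsupp.Lex.wellFounded' (fun n h => Nat.not_lt_zero _ h) wellFounded_lt
    (by exact wellFounded_lt)

lemma WLt_iff (x y : ℕ →₀ ℕ) : WLt x y ↔ ∃ d0, (∀ d, d0 < d → x d = y d) ∧ x d0 < y d0 :=
  Iff.rfl

/-- The choice of the next base of a family, with decreasing weight. -/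
lemma next_base {ι : Type} [Fintype ι] (r : ι → ℤ[X]) (j : ι) (hr1 : ∀ i, 1 ≤ (r i).natDegree)
    (hmax : ∀ i, (r i).natDegree ≤ (r j).natDegree) (a : Bool → ℤ)
    (q' : ι × Bool → ℤ[X]) (hq' : ∀ i, q' i = taylor (a i.2) (r i.1))
    (hgood : ∀ i, i ≠ (j, false) → 0 < (q' i - q' (j, false)).natDegree)
    (w : ℕ →₀ ℕ) (hw : ∀ d, 1 ≤ d → w d = W r d) :
    ∃ b : ι × Bool, b ≠ (j, false) ∧
      (∀ i, (q' i - q' b).natDegree ≤ (q' (j, false) - q' b).natDegree) ∧
      WLt (W fun i => q' i - q' b) w := by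
  classical
  set D := (r j).natDegree with hD
  have hnd : ∀ i, (q' i).natDegree = (r i.1).natDegree := fun i => by
    rw [hq', natDegree_taylor]
  have hlc : ∀ i, (q' i).leadingCoeff = (r i.1).leadingCoeff := fun i => by
    rw [hq', leadingCoeff_taylor]
  by_cases hA : ∃ i, ¬ ((r i).natDegree = D ∧ (r i).leadingCoeff = (r j).leadingCoeff)
  · -- a base of minimal degree
    set S := Finset.univ.filter
      (fun i => ¬ ((r i).natDegree = D ∧ (r i).leadingCoeff = (r j).leadingCoeff)) with hS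
    have hSne : S.Nonempty := by
      obtain ⟨i, hi⟩ := hA
      exact ⟨i, Finset.mem_filter.2 ⟨Finset.mem_univ _, hi⟩⟩
    obtain ⟨i0, hi0S, hi0⟩ := Finset.exists_min_image S (fun i => (r i).natDegree) hSne
    have hi0n := (Finset.mem_filter.1 hi0S).2
    set d0 := (r i0).natDegree with hd0
    have hmin : ∀ i, d0 ≤ (r i).natDegree := by
      intro i
      by_cases hi : i ∈ S
      · exact hi0 i hi
      · have : (r i).natDegree = D ∧ (r i).leadingCoeff = (r j).leadingCoeff := by
          by_contra h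
          exact hi (Finset.mem_filter.2 ⟨Finset.mem_univ _, h⟩)
        rw [this.1]
        exact hmax i0
    have hi0j : i0 ≠ j := by
      intro h
      exact hi0n ⟨by rw [hd0, h], by rw [h]⟩
    have hb0 : (q' (i0, false)).natDegree = d0 := hnd _
    -- degree of the differences
    have hgt : ∀ i : ι × Bool, d0 < (r i.1).natDegree →
        (q' i - q' (i0, false)).natDegree = (r i.1).natDegree ∧
        (q' i - q' (i0, false)).leadingCoeff = (r i.1).leadingCoeff := by
      intro i hi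
      have hlt : (q' (i0, false)).natDegree < (q' i).natDegree := by rw [hb0, hnd]; exact hi
      have h1 : (q' i - q' (i0, false)).natDegree = (r i.1).natDegree := by
        rw [natDegree_sub_eq_left_of_natDegree_lt hlt, hnd]
      refine ⟨h1, ?_⟩
      rw [leadingCoeff, h1, coeff_sub, coeff_eq_zero_of_natDegree_lt (p := q' (i0, false))
        (by rw [hb0]; exact hi), sub_zero, ← hlc i, leadingCoeff, hnd]
    have hle : ∀ i : ι × Bool, (r i.1).natDegree ≤ d0 →
        (q' i - q' (i0, false)).natDegree ≤ d0 ∧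
        (q' i - q' (i0, false)).coeff d0 = (r i.1).leadingCoeff - (r i0).leadingCoeff := by
      intro i hi
      have h0 : (r i.1).natDegree = d0 := le_antisymm hi (hmin _)
      refine ⟨(natDegree_sub_le_of_le (m := d0) (n := d0) (by rw [hnd]; exact hi) hb0.le).trans
        (by simp), ?_⟩
      rw [coeff_sub, ← hlc i, ← hlc (i0, false), leadingCoeff, leadingCoeff, hnd, hb0, h0]
    have hjD : (q' (j, false) - q' (i0, false)).natDegree = D := by
      rcases Nat.lt_or_ge d0 D with h | h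
      · exact (hgt (j, false) h).1
      · have hDd : d0 = D := le_antisymm (hmax i0) h
        have h1 := hle (j, false) h
        have h2 : (r j).leadingCoeff ≠ (r i0).leadingCoeff := by
          intro h2
          exact hi0n ⟨hDd, h2.symm⟩
        refine le_antisymm (hDd ▸ h1.1) ?_
        refine le_natDegree_of_ne_zero ?_
        rw [← hDd, h1.2]
        exact sub_ne_zero.2 h2
    refine ⟨(i0, false), fun h => hi0j (Prod.mk.inj h).1, fun i => ?_, ?_⟩
    · rw [hjD]
      rcases Nat.lt_or_ge d0 (r i.1).natDegree with h | h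
      · rw [(hgt i h).1]; exact hmax _
      · exact (hle i h).1.trans (hmax i0)
    · rw [WLt_iff]
      refine ⟨d0, fun d hd => ?_, ?_⟩
      · rw [hw d (by omega), W_apply, W_apply]
        congr 1
        ext ⟨e, c⟩
        simp only [Finset.mem_filter, mem_Eset]
        constructor
        · rintro ⟨⟨i, h1, h2⟩, rfl⟩
          refine ⟨⟨i.1, ?_⟩, rfl⟩
          rcases Nat.lt_or_ge d0 (r i.1).natDegree with h | h
          · rw [← h1, ← h2, (hgt i h).1, (hgt i h).2]
            exact ⟨rfl, rfl⟩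
          · have := (hle i h).1
            omega
        · rintro ⟨⟨i, h1, h2⟩, rfl⟩
          refine ⟨⟨(i, false), ?_⟩, rfl⟩
          have h := hgt (i, false) (by rw [h1]; exact hd)
          rw [h.1, h.2]
          exact ⟨h1, h2⟩
      · rw [hw d0 (hr1 i0), W_apply, W_apply]
        set E0 := (Eset r).filter fun e => e.1 = d0 with hE0
        have hmem : (d0, (r i0).leadingCoeff) ∈ E0 :=
          Finset.mem_filter.2 ⟨(mem_Eset r _ _).2 ⟨i0, rfl, rfl⟩, rfl⟩
        calc ((Eset fun i => q' i - q' (i0, false)).filter fun e => e.1 = d0).card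
            ≤ ((E0.erase (d0, (r i0).leadingCoeff)).image
                fun e => (d0, e.2 - (r i0).leadingCoeff)).card := by
              refine Finset.card_le_card ?_
              rintro ⟨e, c⟩ hec
              obtain ⟨h1, h2⟩ := Finset.mem_filter.1 hec
              simp only at h2
              subst h2
              obtain ⟨i, h3, h4⟩ := (mem_Eset _ _ _).1 h1
              have hi : (r i.1).natDegree ≤ d0 := by
                by_contra h
                push Not at h
                have := (hgt i h).1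
                omega
              have h5 := hle i hi
              have h6 : (r i.1).natDegree = d0 := le_antisymm hi (hmin _)
              have h7 : c = (r i.1).leadingCoeff - (r i0).leadingCoeff := by
                rw [← h4, leadingCoeff, h3, h5.2]
              have h8 : c ≠ 0 := by
                rw [← h4]
                refine leadingCoeff_ne_zero.2 fun h0 => ?_
                have := hr1 i0
                rw [h0, natDegree_zero] at h3
                omega
              refine Finset.mem_image.2 ⟨(d0, (r i.1).leadingCoeff), ?_, ?_⟩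
              · refine Finset.mem_erase.2 ⟨fun h => h8 ?_, Finset.mem_filter.2
                  ⟨(mem_Eset _ _ _).2 ⟨i.1, h6, rfl⟩, rfl⟩⟩
                rw [h7, (Prod.mk.inj h).2, sub_self]
              · simp [h7]
          _ ≤ (E0.erase (d0, (r i0).leadingCoeff)).card := Finset.card_image_le
          _ < E0.card := Finset.card_erase_lt_of_mem hmem
  · -- all have the same degree and leading coefficient
    push Not at hA
    obtain ⟨b, -, hb⟩ := Finset.exists_max_image Finset.univ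
      (fun i => (q' i - q' (j, false)).natDegree) ⟨(j, false), Finset.mem_univ _⟩
    have hsymm : ∀ i k, (q' i - q' k).natDegree = (q' k - q' i).natDegree := by
      intro i k
      rw [← natDegree_neg, neg_sub]
    refine ⟨b, ?_, fun i => ?_, ?_⟩
    · intro h
      have h1 := hb (j, true) (Finset.mem_univ _)
      have h2 := hgood (j, true) (by simp)
      rw [h, sub_self, natDegree_zero] at h1
      omega
    · have e : q' i - q' b = (q' i - q' (j, false)) + (q' (j, false) - q' b) := by ring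
      rw [e]
      refine (natDegree_add_le _ _).trans (max_le ?_ le_rfl)
      rw [hsymm (j, false) b]
      exact hb i (Finset.mem_univ _)
    · have hlt : ∀ i, (q' i - q' b).natDegree < D := by
        intro i
        have hDpos : 1 ≤ D := hr1 j
        have h1 : (q' i - q' b).natDegree ≤ D := by
          refine (natDegree_sub_le_of_le (m := D) (n := D) ?_ ?_).trans (by simp)
          · rw [hnd]; exact hmax _
          · rw [hnd]; exact hmax _
        have h2 : (q' i - q' b).coeff D = 0 := by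
          have hi := hA i.1
          have hb' := hA b.1
          have e1 : (q' i).coeff D = (r j).leadingCoeff := by
            rw [← hi.2, ← hlc i, leadingCoeff, hnd, hi.1]
          have e2 : (q' b).coeff D = (r j).leadingCoeff := by
            rw [← hb'.2, ← hlc b, leadingCoeff, hnd, hb'.1]
          rw [coeff_sub, e1, e2, sub_self]
        rcases Nat.lt_or_ge (q' i - q' b).natDegree D with h | h
        · exact h
        · exfalso
          have h3 : (q' i - q' b).natDegree = D := le_antisymm h1 h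
          have h4 : (q' i - q' b).leadingCoeff = 0 := by rw [leadingCoeff, h3, h2]
          have h5 : q' i - q' b = 0 := leadingCoeff_eq_zero.1 h4
          rw [h5, natDegree_zero] at h3
          omega
      have hzero : ∀ d, D ≤ d → (W fun i => q' i - q' b) d = 0 := by
        intro d hd
        rw [W_apply, Finset.card_eq_zero, Finset.filter_eq_empty_iff]
        rintro ⟨e, c⟩ hec h
        obtain ⟨i, h1, -⟩ := (mem_Eset _ _ _).1 hec
        have := hlt i
        simp only at h h1
        omega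
      rw [WLt_iff]
      refine ⟨D, fun d hd => ?_, ?_⟩
      · rw [hzero d hd.le, hw d (by omega), W_apply, eq_comm, Finset.card_eq_zero,
          Finset.filter_eq_empty_iff]
        rintro ⟨e, c⟩ hec h
        obtain ⟨i, h1, -⟩ := (mem_Eset _ _ _).1 hec
        have := hmax i
        simp only at h h1
        omega
      · rw [hzero D le_rfl, hw D (hr1 j), W_apply, Finset.card_pos]
        exact ⟨(D, (r j).leadingCoeff), Finset.mem_filter.2
          ⟨(mem_Eset _ _ _).2 ⟨j, rfl, rfl⟩, rfl⟩⟩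

end MPd26.PET
end

section
/-!
# MP_d26cd8_an, PET: the induction

`pet`: a function all of whose Host–Kra seminorms vanish kills every polynomial average,
uniformly in the other functions.  `petL2`: the same in `L²`.
-/
set_option autoImplicit false

open MeasureTheory Filter Topology Polynomial
open scoped ComplexConjugate

namespace MPd26.PET

variable {X : Type} [MeasurableSpace X] {μ : Measure X} {T : Equiv.Perm X}
  {N : ℕ → (X → ℂ) → ℝ}

/-- `f` at the place `j` of the family `q` makes the average smaller than `ε`. -/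
def Ok (μ : Measure X) (T : Equiv.Perm X) {ι : Type} [Fintype ι] (q : ι → ℤ[X]) (j : ι)
    (f : X → ℂ) (ε : ℝ) : Prop :=
  ∃ M0 : ℕ, ∀ M ≥ M0, ∀ g : ι → X → ℂ, (∀ i, U (g i)) → g j = f →
    ‖((M : ℂ))⁻¹ * ∑ n ∈ Finset.range M,
      ∫ x, ∏ i, g i ((T ^ ((q i).eval (n : ℤ))) x) ∂μ‖ ≤ ε

/-- change of the base of the family -/
lemma J_base (hT : MP μ T) {ι : Type} [Fintype ι] (q : ι → ℤ[X]) (p : ℤ[X]) (g : ι → X → ℂ)
    (n : ℤ) : ∫ x, ∏ i, g i ((T ^ ((q i).eval n)) x) ∂μ
      = ∫ x, ∏ i, g i ((T ^ ((q i - p).eval n)) x) ∂μ := by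
  rw [← (hT.zpow (-(p.eval n))).integral_comp]
  refine integral_congr_ae (Eventually.of_forall fun x => ?_)
  refine Finset.prod_congr rfl fun i _ => ?_
  congr 1
  rw [← Equiv.Perm.mul_apply, ← zpow_add, eval_sub, sub_eq_add_neg]

lemma ok_linear [IsProbabilityMeasure μ] (hT : MP μ T) (hN : HKN μ T N) {ι : Type} [Fintype ι]
    (q : ι → ℤ[X]) (j b : ι) (hq : ∀ i, i ≠ j → 0 < (q i - q j).natDegree)
    (hlin : ∀ i, (q i - q b).natDegree ≤ 1) {f : X → ℂ} (hf : U f)
    (hz : ∀ k, 1 ≤ k → N k f = 0) {ε : ℝ} (hε : 0 < ε) : Ok μ T q j f ε := by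
  set c : ι → ℤ := fun i => (q i - q b).coeff 1 with hc
  set d : ι → ℤ := fun i => (q i - q b).coeff 0 with hd
  have hr : ∀ i, q i - q b = C (d i) + C (c i) * Polynomial.X := by
    intro i
    have := eq_X_add_C_of_natDegree_le_one (hlin i)
    rw [add_comm]
    exact this
  have hcc : ∀ i, i ≠ j → c i ≠ c j := by
    intro i hi h
    have h1 := hq i hi
    have h2 : q i - q j = (q i - q b) - (q j - q b) := by ring
    rw [h2, hr i, hr j, h] at h1
    have h3 : (C (d i) + C (c j) * Polynomial.X - (C (d j) + C (c j) * Polynomial.X) : ℤ[X]) = C (d i - d j) := by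
      rw [C_sub]; ring
    rw [h3, natDegree_C] at h1
    omega
  obtain ⟨δ, hδ, hlin'⟩ := lin hT hN (Fintype.card ι) ι c j (by omega) hcc ε hε
  have hfd : U (fun x => f ((T ^ (d j)) x)) := hf.comp (hT.zpow _).m
  obtain ⟨M0, hM0⟩ := hlin' _ hfd (by
    rw [hN.zinv hT (by omega) hf, hz _ (by omega)]; exact hδ.le)
  refine ⟨M0, fun M hM g hg hgj => ?_⟩
  refine le_trans (le_of_eq ?_) (hM0 M hM (fun i x => g i ((T ^ (d i)) x))
    (fun i => (hg i).comp (hT.zpow _).m) (by simp only [hgj]))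
  congr 2
  refine Finset.sum_congr rfl fun n _ => ?_
  rw [J_base hT q (q b)]
  refine integral_congr_ae (Eventually.of_forall fun x => ?_)
  refine Finset.prod_congr rfl fun i _ => ?_
  congr 1
  rw [← Equiv.Perm.mul_apply, ← zpow_add, hr i]
  congr 2
  simp

theorem pet_aux [IsProbabilityMeasure μ] (hT : MP μ T) (hN : HKN μ T N) (w : ℕ →₀ ℕ) :
    ∀ (ι : Type) [Fintype ι] (q : ι → ℤ[X]) (j b : ι),
      (∀ i, i ≠ j → 0 < (q i - q j).natDegree) → b ≠ j →
      (∀ i, (q i - q b).natDegree ≤ (q j - q b).natDegree) → W (fun i => q i - q b) = w →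
      ∀ f : X → ℂ, U f → (∀ k, 1 ≤ k → N k f = 0) → ∀ ε : ℝ, 0 < ε → Ok μ T q j f ε := by
  classical
  induction w using wf_WLt.induction with
  | _ w ih =>
    intro ι _ q j b hq hbj hmax hw f hf hz ε hε
    have hsymm : ∀ i k, (q i - q k).natDegree = (q k - q i).natDegree := by
      intro i k
      rw [← natDegree_neg, neg_sub]
    have hD1 : 1 ≤ (q j - q b).natDegree := by
      rw [hsymm]; exact hq b hbj
    rcases Nat.lt_or_ge (q j - q b).natDegree 2 with hD | hD
    · exact ok_linear hT hN q j b hq (fun i => (hmax i).trans (by omega)) hf hz hε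
    -- degree at least two
    set ι' := {i : ι // (q i - q b).natDegree ≠ 0} with hι'
    set r : ι' → ℤ[X] := fun i => q i - q b with hr
    set j' : ι' := ⟨j, by omega⟩ with hj'
    have hr1 : ∀ i, 1 ≤ (r i).natDegree := fun i => Nat.one_le_iff_ne_zero.2 i.2
    have hrmax : ∀ i, (r i).natDegree ≤ (r j').natDegree := fun i => hmax i
    have hWr : ∀ d, 1 ≤ d → w d = W r d := by
      intro d hd
      rw [← hw, W_apply, W_apply]
      congr 1
      ext ⟨e, c⟩
      simp only [Finset.mem_filter, mem_Eset]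
      constructor
      · rintro ⟨⟨i, h1, h2⟩, rfl⟩
        exact ⟨⟨⟨i, by omega⟩, h1, h2⟩, rfl⟩
      · rintro ⟨⟨i, h1, h2⟩, rfl⟩
        exact ⟨⟨i, h1, h2⟩, rfl⟩
    -- the families after van der Corput
    set q' : ℕ → ℕ → ι' × Bool → ℤ[X] := fun h h' i =>
      taylor (if i.2 then (h' : ℤ) else (h : ℤ)) (r i.1) with hq'
    set Bad : ℕ → ℕ → Prop := fun h h' =>
      ∃ i : ι', (taylor (h : ℤ) (r j') - taylor (h' : ℤ) (r i)).natDegree = 0 with hBad
    have hgood : ∀ h h', ¬ Bad h h' → ∀ ε1 : ℝ, 0 < ε1 → Ok μ T (q' h h') (j', false) f ε1 := by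
      intro h h' hb ε1 hε1
      have hg : ∀ i, i ≠ (j', false) → 0 < (q' h h' i - q' h h' (j', false)).natDegree := by
        rintro ⟨i, β⟩ hi
        cases β with
        | false =>
          have hij : i ≠ j' := fun h => hi (by rw [h])
          have e : q' h h' (i, false) - q' h h' (j', false) = taylor (h : ℤ) (q i - q j) := by
            simp only [hq', hr, hj']
            rw [if_neg (by simp), ← map_sub]
            congr 1
            ring
          rw [e, natDegree_taylor]
          exact hq i fun h => hij (Subtype.ext h)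
        | true =>
          have e : q' h h' (i, true) - q' h h' (j', false)
              = -(taylor (h : ℤ) (r j') - taylor (h' : ℤ) (r i)) := by
            simp only [hq', if_true, Bool.false_eq_true, if_false]
            ring
          rw [e, natDegree_neg]
          refine Nat.pos_of_ne_zero fun h0 => hb ⟨i, h0⟩
      obtain ⟨b', hb', hb'max, hb'w⟩ := next_base r j' hr1 hrmax
        (fun β => if β then (h' : ℤ) else (h : ℤ)) (q' h h') (fun i => rfl) hg w hWr
      exact ih _ hb'w (ι' × Bool) (q' h h') (j', false) b' hg hb' hb'max rfl f hf hz ε1 hε1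
    have hbad_card : ∀ (H h : ℕ), ((Finset.range H).filter fun h' => Bad h h').card
        ≤ Fintype.card ι' := by
      intro H h
      have hsub : (Finset.range H).filter (fun h' => Bad h h') ⊆
          Finset.univ.biUnion fun i : ι' => (Finset.range H).filter fun h' =>
            (taylor (h : ℤ) (r j') - taylor (h' : ℤ) (r i)).natDegree = 0 := by
        intro h' hh'
        obtain ⟨h1, i, hi⟩ := Finset.mem_filter.1 hh'
        exact Finset.mem_biUnion.2 ⟨i, Finset.mem_univ _, Finset.mem_filter.2 ⟨h1, hi⟩⟩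
      refine (Finset.card_le_card hsub).trans (Finset.card_biUnion_le.trans ?_)
      calc _ ≤ ∑ i : ι', 1 := by
            refine Finset.sum_le_sum fun i _ => ?_
            refine Finset.card_le_one.2 fun a ha a' ha' => ?_
            have h1 := (Finset.mem_filter.1 ha).2
            have h2 := (Finset.mem_filter.1 ha').2
            have h3 : 2 ≤ (r i).natDegree := by
              by_contra h4
              push Not at h4
              have h5 : (taylor (a : ℤ) (r i)).natDegree < (taylor (h : ℤ) (r j')).natDegree := by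
                rw [natDegree_taylor, natDegree_taylor]
                exact lt_of_lt_of_le h4 hD
              have h6 := natDegree_sub_eq_left_of_natDegree_lt h5
              rw [h1, natDegree_taylor] at h6
              have : 2 ≤ (r j').natDegree := hD
              omega
            exact_mod_cast shift_unique h3 h1 h2
        _ = Fintype.card ι' := by simp
    -- choice of H
    set K : ℝ := ((Fintype.card ι' : ℕ) : ℝ) with hK
    obtain ⟨H, hH⟩ := exists_nat_ge (max 1 (4 * K / ε ^ 2))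
    have hH1 : 1 ≤ H := by
      have : (1 : ℝ) ≤ H := (le_max_left _ _).trans hH
      exact_mod_cast this
    have hHr : (0 : ℝ) < H := by exact_mod_cast hH1
    have hHK : K / H ≤ ε ^ 2 / 4 := by
      have h1 : 4 * K / ε ^ 2 ≤ H := (le_max_right _ _).trans hH
      rw [div_le_iff₀ (by positivity)] at h1
      rw [div_le_iff₀ hHr]
      linarith
    have hpair : ∀ h h' : ℕ, ∃ M0 : ℕ, ∀ M ≥ M0, ∀ g : ι' × Bool → X → ℂ,
        (∀ i, U (g i)) → g (j', false) = f →
        ‖((M : ℂ))⁻¹ * ∑ n ∈ Finset.range M,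
          ∫ x, ∏ i, g i ((T ^ ((q' h h' i).eval (n : ℤ))) x) ∂μ‖
          ≤ ε ^ 2 / 4 + if Bad h h' then (1 : ℝ) else 0 := by
      intro h h'
      by_cases hb : Bad h h'
      · refine ⟨0, fun M _ g hg _ => ?_⟩
        rw [if_pos hb]
        have h2 : ‖((M : ℂ))⁻¹ * ∑ n ∈ Finset.range M,
          ∫ x, ∏ i, g i ((T ^ ((q' h h' i).eval (n : ℤ))) x) ∂μ‖ ≤ 1 :=
          norm_avg_le fun n => norm_int_le (U.prod _ fun i _ => (hg i).comp (hT.zpow _).m)
        have h3 : 0 ≤ ε ^ 2 / 4 := by positivity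
        linarith
      · obtain ⟨M0, hM0⟩ := hgood h h' hb (ε ^ 2 / 4) (by positivity)
        refine ⟨M0, fun M hM g hg hgj => ?_⟩
        rw [if_neg hb, add_zero]
        exact hM0 M hM g hg hgj
    choose M0 hM0 using hpair
    obtain ⟨M1, hM1⟩ : ∃ M1 : ℕ, ∀ h < H, ∀ h' < H, M0 h h' ≤ M1 := by
      refine ⟨∑ h ∈ Finset.range H, ∑ h' ∈ Finset.range H, M0 h h', fun h hh h' hh' => ?_⟩
      calc M0 h h' ≤ ∑ h' ∈ Finset.range H, M0 h h' :=
            Finset.single_le_sum (f := fun h' => M0 h h') (fun _ _ => Nat.zero_le _)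
              (Finset.mem_range.2 hh')
        _ ≤ _ := Finset.single_le_sum (f := fun h => ∑ h' ∈ Finset.range H, M0 h h')
              (fun _ _ => Nat.zero_le _) (Finset.mem_range.2 hh)
    obtain ⟨M2, hM2⟩ := exists_nat_ge (16 * (H : ℝ) / ε ^ 2)
    refine ⟨max (max M1 M2) 1, fun M hM g hg hgj => ?_⟩
    have hMpos : 0 < M := lt_of_lt_of_le Nat.one_pos ((le_max_right _ _).trans hM)
    have hMM1 : M1 ≤ M := ((le_max_left _ _).trans (le_max_left _ _)).trans hM
    have hMM2 : M2 ≤ M := ((le_max_right _ _).trans (le_max_left _ _)).trans hM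
    set d : ι → ℤ := fun i => (q i - q b).coeff 0 with hd
    set w' : X → ℂ := fun x => ∏ i ∈ Finset.univ.filter
      (fun i => ¬ (q i - q b).natDegree ≠ 0), g i ((T ^ (d i)) x) with hw'
    set u : ℕ → X → ℂ := fun n x => ∏ i : ι', g i ((T ^ ((r i).eval (n : ℤ))) x) with hu
    have hwU : U w' := U.prod _ fun i _ => (hg i).comp (hT.zpow _).m
    have huU : ∀ n, U (u n) := fun n => U.prod _ fun i _ => (hg i).comp (hT.zpow _).m
    have e1 : ∀ n : ℕ, ∫ x, ∏ i, g i ((T ^ ((q i).eval (n : ℤ))) x) ∂μ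
        = ∫ x, w' x * u n x ∂μ := by
      intro n
      rw [J_base hT q (q b)]
      refine integral_congr_ae (Eventually.of_forall fun x => ?_)
      simp only [hw', hu]
      rw [← Finset.prod_filter_mul_prod_filter_not Finset.univ
        (fun i => (q i - q b).natDegree ≠ 0), mul_comm]
      congr 1
      · refine Finset.prod_congr rfl fun i hi => ?_
        have h0 : (q i - q b).natDegree = 0 := by simpa using (Finset.mem_filter.1 hi).2
        congr 2
        rw [eq_C_of_natDegree_eq_zero h0, eval_C]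
      · rw [← Finset.prod_subtype_eq_prod_filter]
        rw [Finset.subtype_univ]
    simp_rw [e1]
    have hvdc := vdc (μ := μ) hwU huU hMpos hH1
    have hMr : (0 : ℝ) < M := by exact_mod_cast hMpos
    have hsum : ∀ h ∈ Finset.range H, ∀ h' ∈ Finset.range H,
        ‖((M : ℂ))⁻¹ * ∑ n ∈ Finset.range M, ∫ x, u (n + h) x * conj (u (n + h') x) ∂μ‖
          ≤ ε ^ 2 / 4 + if Bad h h' then (1 : ℝ) else 0 := by
      intro h hh h' hh'
      have := hM0 h h' M ((hM1 h (Finset.mem_range.1 hh) h' (Finset.mem_range.1 hh')).trans hMM1)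
        (fun i => if i.2 then (fun x => conj (g i.1 x)) else g i.1)
        (fun i => by
          split_ifs
          · exact (hg i.1).conj
          · exact hg i.1)
        (by
          rw [if_neg (by simp)]
          exact hgj)
      refine le_trans (le_of_eq ?_) this
      congr 2
      refine Finset.sum_congr rfl fun n _ => ?_
      refine integral_congr_ae (Eventually.of_forall fun x => ?_)
      simp only [hu, hq', Fintype.prod_prod_type, Fintype.prod_bool, if_true,
        Bool.false_eq_true, if_false, taylor_eval]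
      rw [map_prod, ← Finset.prod_mul_distrib]
      refine Finset.prod_congr rfl fun i _ => ?_
      push_cast
      ring
    have hfin : ‖((M : ℂ))⁻¹ * ∑ n ∈ Finset.range M, ∫ x, w' x * u n x ∂μ‖ ^ 2 ≤ ε ^ 2 := by
      have hbadsum : ∑ h ∈ Finset.range H, ∑ h' ∈ Finset.range H,
          (if Bad h h' then (1 : ℝ) else 0) ≤ H * K := by
        calc _ ≤ ∑ h ∈ Finset.range H, K := by
              refine Finset.sum_le_sum fun h _ => ?_
              rw [Finset.sum_boole, hK]
              exact_mod_cast hbad_card H h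
          _ = H * K := by simp
      calc _ ≤ 4 * H / M + ((H : ℝ) ^ 2)⁻¹ * ∑ h ∈ Finset.range H, ∑ h' ∈ Finset.range H,
            ‖((M : ℂ))⁻¹ * ∑ n ∈ Finset.range M, ∫ x, u (n + h) x * conj (u (n + h') x) ∂μ‖ :=
            hvdc
        _ ≤ 4 * H / M + ((H : ℝ) ^ 2)⁻¹ * ∑ h ∈ Finset.range H, ∑ h' ∈ Finset.range H,
            (ε ^ 2 / 4 + if Bad h h' then (1 : ℝ) else 0) := by
            gcongr with h hh h' hh'
            exact hsum h hh h' hh'
        _ = 4 * H / M + ε ^ 2 / 4 + ((H : ℝ) ^ 2)⁻¹ * ∑ h ∈ Finset.range H,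
            ∑ h' ∈ Finset.range H, (if Bad h h' then (1 : ℝ) else 0) := by
            simp only [Finset.sum_add_distrib, Finset.sum_const, Finset.card_range,
              nsmul_eq_mul]
            field_simp
            ring
        _ ≤ ε ^ 2 / 4 + ε ^ 2 / 4 + ((H : ℝ) ^ 2)⁻¹ * (H * K) := by
            have h1 : 4 * (H : ℝ) / M ≤ ε ^ 2 / 4 := by
              have h2 : 16 * (H : ℝ) / ε ^ 2 ≤ M := hM2.trans (by exact_mod_cast hMM2)
              rw [div_le_iff₀ (by positivity)] at h2
              rw [div_le_iff₀ hMr]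
              linarith
            gcongr
        _ = ε ^ 2 / 4 + ε ^ 2 / 4 + K / H := by field_simp
        _ ≤ ε ^ 2 / 4 + ε ^ 2 / 4 + ε ^ 2 / 4 := by gcongr
        _ ≤ ε ^ 2 := by nlinarith [sq_nonneg ε]
    exact (pow_le_pow_iff_left₀ (norm_nonneg _) hε.le two_ne_zero).1 hfin

/-- PET induction: a function all of whose Host–Kra seminorms vanish kills the average,
uniformly in the other functions. -/
theorem pet [IsProbabilityMeasure μ] (hT : MP μ T) (hN : HKN μ T N) {ι : Type} [Fintype ι]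
    (q : ι → ℤ[X]) (j : ι) (hq : ∀ i, i ≠ j → 0 < (q i - q j).natDegree)
    {f : X → ℂ} (hf : U f) (hz : ∀ k, 1 ≤ k → N k f = 0) {ε : ℝ} (hε : 0 < ε) :
    ∃ M0 : ℕ, ∀ M ≥ M0, ∀ g : ι → X → ℂ, (∀ i, U (g i)) → g j = f →
      ‖((M : ℂ))⁻¹ * ∑ n ∈ Finset.range M,
        ∫ x, ∏ i, g i ((T ^ ((q i).eval (n : ℤ))) x) ∂μ‖ ≤ ε := by
  classical
  have hsymm : ∀ i k, (q i - q k).natDegree = (q k - q i).natDegree := by
    intro i k
    rw [← natDegree_neg, neg_sub]
  by_cases hex : ∃ b, b ≠ j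
  · obtain ⟨b, -, hb⟩ := Finset.exists_max_image Finset.univ
      (fun i => (q i - q j).natDegree) ⟨j, Finset.mem_univ _⟩
    obtain ⟨b0, hb0⟩ := hex
    refine pet_aux hT hN _ ι q j b hq ?_ (fun i => ?_) rfl f hf hz ε hε
    · intro h
      have h1 := hb b0 (Finset.mem_univ _)
      have h2 := hq b0 hb0
      rw [h, sub_self, natDegree_zero] at h1
      omega
    · have e : q i - q b = (q i - q j) + (q j - q b) := by ring
      rw [e]
      refine (natDegree_add_le _ _).trans (max_le ?_ le_rfl)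
      rw [hsymm j b]
      exact hb i (Finset.mem_univ _)
  · push Not at hex
    refine ok_linear hT hN q j j hq (fun i => ?_) hf hz hε
    rw [hex i, sub_self, natDegree_zero]
    exact Nat.zero_le _

/-- PET induction in `L²`. -/
theorem petL2 [IsProbabilityMeasure μ] (hT : MP μ T) (hN : HKN μ T N) {ι : Type} [Fintype ι]
    (q : ι → ℤ[X]) (j : ι) (hj : 0 < (q j).natDegree)
    (hq : ∀ i, i ≠ j → 0 < (q i - q j).natDegree)
    {f : X → ℂ} (hf : U f) (hz : ∀ k, 1 ≤ k → N k f = 0) {ε : ℝ} (hε : 0 < ε) :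
    ∃ M0 : ℕ, ∀ M ≥ M0, ∀ g : ι → X → ℂ, (∀ i, U (g i)) → g j = f →
      ∫ x, ‖((M : ℂ))⁻¹ * ∑ n ∈ Finset.range M,
        ∏ i, g i ((T ^ ((q i).eval (n : ℤ))) x)‖ ^ 2 ∂μ ≤ ε := by
  classical
  set Q : Option ι → ℤ[X] := fun i => i.elim 0 q with hQ
  have hQq : ∀ i, i ≠ some j → 0 < (Q i - Q (some j)).natDegree := by
    rintro (_ | i) hi
    · simp only [hQ, Option.elim]
      rw [zero_sub, natDegree_neg]
      exact hj
    · exact hq i fun h => hi (by rw [h])
  obtain ⟨M0, hM0⟩ := pet hT hN Q (some j) hQq hf hz hε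
  refine ⟨M0, fun M hM g hg hgj => ?_⟩
  set u : ℕ → X → ℂ := fun n x => ∏ i, g i ((T ^ ((q i).eval (n : ℤ))) x) with hu
  have huU : ∀ n, U (u n) := fun n => U.prod _ fun i _ => (hg i).comp (hT.zpow _).m
  set A : X → ℂ := fun x => ((M : ℂ))⁻¹ * ∑ n ∈ Finset.range M, u n x with hA
  have hAU : U A := by
    refine ⟨?_, fun x => norm_avg_le fun n => (huU n).2 x⟩
    exact measurable_const.mul (Finset.measurable_sum _ fun n _ => (huU n).1)
  have h1 := hM0 M hM (fun i => i.elim (fun x => conj (A x)) g) (by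
    rintro (_ | i)
    · exact hAU.conj
    · exact hg i) hgj
  have h2 : ((M : ℂ))⁻¹ * ∑ n ∈ Finset.range M,
        ∫ x, ∏ i : Option ι, (i.elim (fun x => conj (A x)) g : X → ℂ)
          ((T ^ ((Q i).eval (n : ℤ))) x) ∂μ = ((∫ x, ‖A x‖ ^ 2 ∂μ : ℝ) : ℂ) := by
    have e1 : ∀ n : ℕ, ∫ x, ∏ i : Option ι, (i.elim (fun x => conj (A x)) g : X → ℂ)
          ((T ^ ((Q i).eval (n : ℤ))) x) ∂μ = ∫ x, conj (A x) * u n x ∂μ := by
      intro n
      refine integral_congr_ae (Eventually.of_forall fun x => ?_)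
      simp only [Fintype.prod_option, hQ, Option.elim, hu, eval_zero, zpow_zero,
        Equiv.Perm.coe_one, id_eq]
    simp_rw [e1]
    rw [← integral_finsetSum _ fun n _ => (hAU.conj.mul (huU n)).integrable,
      ← integral_const_mul, ← integral_complex_ofReal]
    refine integral_congr_ae (Eventually.of_forall fun x => ?_)
    simp only
    rw [← Finset.mul_sum, mul_left_comm]
    have : ((M : ℂ))⁻¹ * ∑ n ∈ Finset.range M, u n x = A x := rfl
    rw [this, mul_comm, Complex.mul_conj, Complex.normSq_eq_norm_sq]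
  rw [h2, Complex.norm_real, Real.norm_eq_abs] at h1
  exact (le_abs_self _).trans h1

end MPd26.PET
end
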